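import Mathlib

/-!
# Tropical rank versus dimension for finitely generated tropical semimodules of functions

* With coefficients in `T = ℝ ∪ {∞}` in the definition of tropical dependence, tropical rank and
  dimension agree for all finitely generated semimodules of real functions on any nonempty set.
* With real coefficients they agree as soon as the differences of the generators are bounded, in
  particular on compact spaces.
* With real coefficients they can differ on an unbounded polyhedral space: on `ℝ`, the semimodule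
  generated by `0` and `x` has dimension `2` and infinite tropical rank.
-/

set_option autoImplicit false

namespace Pool.Agent.Results.MP_8916ec_co.TropRankDim

/-! ### Definitions -/

/-- The tropical linear combination `x ↦ min_j (g_j(x) + c_j)`, with coefficients in
`T = ℝ ∪ {∞}`. -/
noncomputable def comb {Y : Type} {l : ℕ} (g : Fin l → Y → ℝ) (c : Fin l → WithTop ℝ) :
    Y → WithTop ℝ :=
  fun x => Finset.univ.inf fun j => (g j x : WithTop ℝ) + c j

/-- The `T`-semimodule generated by the finite-valued functions `g_1, ..., g_l`. -/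
def semimod {Y : Type} {l : ℕ} (g : Fin l → Y → ℝ) : Set (Y → WithTop ℝ) :=
  Set.range (comb g)

/-- The map `Ψ : ℝ^l → M`, `Ψ(c) = min_j (g_j + c_j)`. -/
noncomputable def Psi {Y : Type} {l : ℕ} (g : Fin l → Y → ℝ) (c : Fin l → ℝ) : Y → WithTop ℝ :=
  comb g fun j => (c j : WithTop ℝ)

/-- The dimension of a nonempty finite union of polyhedra `P ⊆ ℝ^l`: the largest dimension (of the
affine span) of a nonempty convex set contained in `P`. -/
noncomputable def polyDim {l : ℕ} (P : Set (Fin l → ℝ)) : ℕ :=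
  sSup {n | ∃ C : Set (Fin l → ℝ), C ⊆ P ∧ C.Nonempty ∧ Convex ℝ C ∧
    n = Module.finrank ℝ (vectorSpan ℝ C)}

/-- `dim(M) = max_f [l - dim Ψ⁻¹(f)]`, over the `f ∈ M` with nonempty fibre. -/
noncomputable def dim {Y : Type} {l : ℕ} (g : Fin l → Y → ℝ) : ℕ∞ :=
  sSup {k | ∃ f ∈ semimod g, (Psi g ⁻¹' {f}).Nonempty ∧
    k = ((l - polyDim (Psi g ⁻¹' {f}) : ℕ) : ℕ∞)}

/-- `f_1, ..., f_r` are tropically dependent: there are real `c_1, ..., c_r` such that at every
point the minimum of the `f_i + c_i` is attained by at least two indices. -/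
def TropDependent {Y : Type} {r : ℕ} (F : Fin r → Y → ℝ) : Prop :=
  ∃ c : Fin r → ℝ, ∀ x, ∃ i j, i ≠ j ∧ F i x + c i = F j x + c j ∧
    ∀ k, F i x + c i ≤ F k x + c k

/-- Tropical dependence with coefficients in `T = ℝ ∪ {∞}`, not all `∞`: `I` is the set of indices
with a finite coefficient. -/
def TropDependentT {Y : Type} {r : ℕ} (F : Fin r → Y → ℝ) : Prop :=
  ∃ I : Set (Fin r), I.Nonempty ∧ ∃ c : Fin r → ℝ, ∀ x, ∃ i ∈ I, ∃ j ∈ I, i ≠ j ∧
    F i x + c i = F j x + c j ∧ ∀ k ∈ I, F i x + c i ≤ F k x + c k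

/-- `troprank(M)`: the largest (supremum, possibly infinite) `r` such that `M` contains `r`
tropically independent finite-valued elements. -/
noncomputable def troprank {Y : Type} (M : Set (Y → WithTop ℝ)) : ℕ∞ :=
  sSup {k | ∃ (r : ℕ) (F : Fin r → Y → ℝ), (∀ i, (fun x => (F i x : WithTop ℝ)) ∈ M) ∧
    ¬ TropDependent F ∧ k = r}

/-- The same with dependence over `T = ℝ ∪ {∞}`. -/
noncomputable def troprankT {Y : Type} (M : Set (Y → WithTop ℝ)) : ℕ∞ :=
  sSup {k | ∃ (r : ℕ) (F : Fin r → Y → ℝ), (∀ i, (fun x => (F i x : WithTop ℝ)) ∈ M) ∧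
    ¬ TropDependentT F ∧ k = r}

/-- A closed convex polyhedron in `ℝ^d`. -/
def IsPolyhedron {d : ℕ} (P : Set (Fin d → ℝ)) : Prop :=
  ∃ (n : ℕ) (A : Fin n → Fin d → ℝ) (b : Fin n → ℝ), P = {x | ∀ i, ∑ k, A i k * x k ≤ b i}

/-- `Y ⊆ ℝ^d` is a polyhedral subspace (a finite union of closed convex polyhedra) and `f` is a
piecewise linear function on `Y`: continuous, and affine on each member of a finite family of
closed convex polyhedra with union `Y`. -/
def IsPL {d : ℕ} {Y : Set (Fin d → ℝ)} (f : Y → ℝ) : Prop :=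
  Continuous f ∧ ∃ (n : ℕ) (Q : Fin n → Set (Fin d → ℝ)), (∀ i, IsPolyhedron (Q i)) ∧
    Y = ⋃ i, Q i ∧ ∀ i, ∃ (s : Fin d → ℝ) (t : ℝ), ∀ x : Y, x.1 ∈ Q i → f x = ∑ k, s k * x.1 k + t

/-! ### Values -/

theorem comb_eq_coe {Y : Type} {l : ℕ} (g : Fin l → Y → ℝ) (c : Fin l → WithTop ℝ) (x : Y)
    (v : ℝ) : comb g c x = (v : WithTop ℝ) ↔
      (∀ j, (v : WithTop ℝ) ≤ (g j x : WithTop ℝ) + c j) ∧
        ∃ j, (v : WithTop ℝ) = (g j x : WithTop ℝ) + c j := by
  unfold comb
  constructor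
  · intro h
    refine ⟨fun j => h ▸ Finset.inf_le (Finset.mem_univ j), ?_⟩
    rcases (Finset.univ : Finset (Fin l)).eq_empty_or_nonempty with he | hne
    · rw [he, Finset.inf_empty] at h
      exact absurd h.symm WithTop.coe_ne_top
    · obtain ⟨j, -, hj⟩ := Finset.exists_mem_eq_inf _ hne (fun j => (g j x : WithTop ℝ) + c j)
      exact ⟨j, by rw [← h, hj]⟩
  · rintro ⟨h1, j, hj⟩
    exact le_antisymm (hj ▸ Finset.inf_le (Finset.mem_univ j)) (Finset.le_inf fun j _ => h1 j)

theorem Psi_eq_coe {Y : Type} {l : ℕ} (g : Fin l → Y → ℝ) (c : Fin l → ℝ) (x : Y) (v : ℝ) :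
    Psi g c x = (v : WithTop ℝ) ↔ (∀ j, v ≤ g j x + c j) ∧ ∃ j, v = g j x + c j := by
  rw [Psi, comb_eq_coe]
  norm_cast

theorem exists_val {Y : Type} {l : ℕ} (g : Fin l → Y → ℝ) (c : Fin l → ℝ) (j0 : Fin l) :
    ∃ f : Y → ℝ, Psi g c = fun x => (f x : WithTop ℝ) := by
  have h : ∀ x, ∃ v : ℝ, Psi g c x = (v : WithTop ℝ) := by
    intro x
    have : Nonempty (Fin l) := ⟨j0⟩
    obtain ⟨j, hj⟩ := Finite.exists_min (fun j => g j x + c j)
    exact ⟨g j x + c j, (Psi_eq_coe g c x _).2 ⟨hj, j, rfl⟩⟩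
  choose f hf using h
  exact ⟨f, funext hf⟩

theorem exists_pos_le {ι : Type} [Finite ι] (h : ι → ℝ) (hp : ∀ i, 0 < h i) :
    ∃ δ : ℝ, 0 < δ ∧ ∀ i, δ ≤ h i := by
  rcases isEmpty_or_nonempty ι with he | hne
  · exact ⟨1, one_pos, fun i => he.elim i⟩
  · obtain ⟨i, hi⟩ := Finite.exists_min h
    exact ⟨h i, hp i, hi⟩

theorem exists_ge {ι : Type} [Finite ι] (h : ι → ℝ) : ∃ N : ℝ, ∀ i, h i ≤ N := by
  rcases isEmpty_or_nonempty ι with he | hne
  · exact ⟨1, fun i => he.elim i⟩
  · obtain ⟨i, hi⟩ := Finite.exists_max h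
    exact ⟨h i, hi⟩

/-! ### Independent functions have private points -/

theorem step {Y : Type} {r : ℕ} (F : Fin r → Y → ℝ) (S : Finset Y) (ε : ℝ) (hr : 2 ≤ r)
    (a : Fin r → ℝ) : ∃ a' : Fin r → ℝ, (∀ i, a i ≤ a' i) ∧
      (∀ i, a' i = a i ∨ ∃ x ∈ S, ∀ j, j ≠ i → F i x + a' i + ε ≤ F j x + a j) ∧
      (∀ x ∈ S, ∀ i, ∃ j, j ≠ i ∧ F j x + a j ≤ F i x + a' i + ε) := by
  have key : ∀ i, ∃ b : ℝ, a i ≤ b ∧ (b = a i ∨ ∃ x ∈ S, ∀ j, j ≠ i →
      F i x + b + ε ≤ F j x + a j) ∧ ∀ x ∈ S, ∃ j, j ≠ i ∧ F j x + a j ≤ F i x + b + ε := by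
    intro i
    have hne : (Finset.univ.erase i).Nonempty := by
      rw [← Finset.card_pos, Finset.card_erase_of_mem (Finset.mem_univ i), Finset.card_univ,
        Fintype.card_fin]
      omega
    by_cases h : ∀ x ∈ S, ∃ j, j ≠ i ∧ F j x + a j ≤ F i x + a i + ε
    · exact ⟨a i, le_rfl, Or.inl rfl, h⟩
    · push Not at h
      obtain ⟨x0, hx0, h0⟩ := h
      let μ : Y → ℝ := fun x => (Finset.univ.erase i).inf' hne (fun j => F j x + a j) - F i x - ε
      obtain ⟨x1, hx1, h1⟩ := Finset.exists_max_image S μ ⟨x0, hx0⟩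
      refine ⟨μ x1, ?_, Or.inr ⟨x1, hx1, fun j hj => ?_⟩, fun x hx => ?_⟩
      · refine le_trans ?_ (h1 x0 hx0)
        have : F i x0 + a i + ε ≤ (Finset.univ.erase i).inf' hne (fun j => F j x0 + a j) :=
          Finset.le_inf' _ _ fun j hj => (h0 j (Finset.ne_of_mem_erase hj)).le
        simp only [μ]
        linarith
      · have : (Finset.univ.erase i).inf' hne (fun j => F j x1 + a j) ≤ F j x1 + a j :=
          Finset.inf'_le _ (Finset.mem_erase.2 ⟨hj, Finset.mem_univ j⟩)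
        simp only [μ]
        linarith
      · obtain ⟨j, hj, hj'⟩ := Finset.exists_mem_eq_inf' hne (fun j => F j x + a j)
        refine ⟨j, Finset.ne_of_mem_erase hj, ?_⟩
        have := h1 x hx
        simp only [μ] at this ⊢
        rw [← hj']
        linarith
  choose b hb1 hb2 hb3 using key
  exact ⟨b, hb1, hb2, fun x hx i => hb3 i x hx⟩

/-- If there is no choice of coefficients with private points for all the functions, then for
every finite set of points and every `ε` there is an `ε`-approximate dependency. -/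
theorem approx {Y : Type} {r : ℕ} (F : Fin r → Y → ℝ) (μ : Y → ℝ) (hμ : ∀ i x, μ x ≤ F i x)
    (hr : 2 ≤ r) (hno : ¬ ∃ a : Fin r → ℝ, ∀ i, ∃ x, ∀ j, j ≠ i → F i x + a i < F j x + a j)
    (S : Finset Y) (ε : ℝ) (hε : 0 < ε) : ∃ c : Fin r → ENNReal, (∃ i, c i = 0) ∧
      ∀ x ∈ S, ∀ i, ∃ j, j ≠ i ∧ ENNReal.ofReal (F j x - μ x) + c j ≤
        ENNReal.ofReal (F i x - μ x) + c i + ENNReal.ofReal ε := by
  choose st h1 h2 h3 using fun a => step F S ε hr a
  obtain ⟨a, ha0, hs⟩ : ∃ a : ℕ → Fin r → ℝ, (∀ i, a 0 i = 0) ∧ ∀ t, a (t + 1) = st (a t) :=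
    ⟨fun t => Nat.rec (fun _ => 0) (fun _ b => st b) t, fun _ => rfl, fun _ => rfl⟩
  have hmono : ∀ i, Monotone fun t => a t i := fun i =>
    monotone_nat_of_le_succ fun t => by rw [hs]; exact h1 (a t) i
  have hnn : ∀ t i, 0 ≤ a t i := fun t i => by rw [← ha0 i]; exact hmono i (Nat.zero_le t)
  have hinv : ∀ t i, a t i = 0 ∨ ∃ x ∈ S, ∀ j, j ≠ i → F i x + a t i + ε ≤ F j x + a t j := by
    intro t
    induction t with
    | zero => exact fun i => Or.inl (ha0 i)
    | succ t ih =>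
      intro i
      rcases h2 (a t) i with h | ⟨x, hx, h⟩
      · rcases ih i with h' | ⟨x, hx, h'⟩
        · left; rw [hs, h, h']
        · right
          refine ⟨x, hx, fun j hj => ?_⟩
          have e1 := h' j hj
          have e2 : a t j ≤ a (t + 1) j := hmono j (Nat.le_succ t)
          rw [hs t] at e2 ⊢
          rw [h]
          linarith
      · right
        refine ⟨x, hx, fun j hj => ?_⟩
        have e1 := h j hj
        have e2 : a t j ≤ a (t + 1) j := hmono j (Nat.le_succ t)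
        rw [hs t] at e2 ⊢
        linarith
  obtain ⟨i0, hi0⟩ : ∃ i, ∀ t, a t i = 0 := by
    by_contra hcon
    push Not at hcon
    choose t ht using hcon
    apply hno
    refine ⟨a (Finset.univ.sup t), fun i => ?_⟩
    have hpos : 0 < a (Finset.univ.sup t) i :=
      lt_of_lt_of_le (lt_of_le_of_ne (hnn _ _) (Ne.symm (ht i)))
        (hmono i (Finset.le_sup (Finset.mem_univ i)))
    rcases hinv (Finset.univ.sup t) i with h | ⟨x, -, h⟩
    · exact absurd h hpos.ne'
    · exact ⟨x, fun j hj => by have := h j hj; linarith⟩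
  refine ⟨fun i => ⨆ t, ENNReal.ofReal (a t i), ⟨i0, ?_⟩, fun x hx i => ?_⟩
  · simp [hi0]
  · by_contra hcon
    push Not at hcon
    have hlt : ∀ j, j ≠ i → ∃ t, ENNReal.ofReal (F i x - μ x) + (⨆ t, ENNReal.ofReal (a t i)) +
        ENNReal.ofReal ε < ENNReal.ofReal (F j x - μ x) + ENNReal.ofReal (a t j) := by
      intro j hj
      have := hcon j hj
      rw [ENNReal.add_iSup (a := ENNReal.ofReal (F j x - μ x)), lt_iSup_iff] at this
      exact this
    choose! t ht using hlt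
    obtain ⟨j, hj, hle⟩ := h3 (a (Finset.univ.sup t)) x hx i
    have e1 := ht j hj
    have e2 : ENNReal.ofReal (a (t j) j) ≤ ENNReal.ofReal (a (Finset.univ.sup t) j) :=
      ENNReal.ofReal_le_ofReal (hmono j (Finset.le_sup (Finset.mem_univ j)))
    have e3 : ENNReal.ofReal (F j x - μ x) + ENNReal.ofReal (a (Finset.univ.sup t) j) ≤
        ENNReal.ofReal (F i x - μ x) + ENNReal.ofReal (a (Finset.univ.sup t + 1) i) +
          ENNReal.ofReal ε := by
      rw [← ENNReal.ofReal_add (sub_nonneg.2 (hμ j x)) (hnn _ _),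
        ← ENNReal.ofReal_add (sub_nonneg.2 (hμ i x)) (hnn _ _),
        ← ENNReal.ofReal_add (add_nonneg (sub_nonneg.2 (hμ i x)) (hnn _ _)) hε.le]
      refine ENNReal.ofReal_le_ofReal ?_
      rw [hs]
      linarith
    have e4 : ENNReal.ofReal (a (Finset.univ.sup t + 1) i) ≤ ⨆ t, ENNReal.ofReal (a t i) :=
      le_iSup (fun t => ENNReal.ofReal (a t i)) _
    refine absurd e1 (not_lt.2 ?_)
    calc ENNReal.ofReal (F j x - μ x) + ENNReal.ofReal (a (t j) j)
        ≤ ENNReal.ofReal (F j x - μ x) + ENNReal.ofReal (a (Finset.univ.sup t) j) := by gcongr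
      _ ≤ _ := e3
      _ ≤ _ := by gcongr

/-- Functions that are tropically independent over `T` have, for suitable real coefficients,
private points. -/
theorem exists_private {Y : Type} [Nonempty Y] {r : ℕ} (F : Fin r → Y → ℝ)
    (hF : ¬ TropDependentT F) :
    ∃ a : Fin r → ℝ, ∀ i, ∃ x, ∀ j, j ≠ i → F i x + a i < F j x + a j := by
  by_contra hno
  rcases Nat.lt_or_ge r 2 with hr | hr
  · apply hno
    refine ⟨fun _ => 0, fun i => ⟨Classical.arbitrary Y, fun j hj => ?_⟩⟩
    exfalso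
    apply hj
    apply Fin.ext
    omega
  apply hF
  have : Nonempty (Fin r) := ⟨⟨0, by omega⟩⟩
  have hμ : ∃ μ : Y → ℝ, ∀ i x, μ x ≤ F i x := by
    have : ∀ x, ∃ v, ∀ i, v ≤ F i x := fun x => by
      obtain ⟨i, hi⟩ := Finite.exists_min (fun i => F i x)
      exact ⟨_, hi⟩
    choose μ hμ using this
    exact ⟨μ, fun i x => hμ x i⟩
  obtain ⟨μ, hμ⟩ := hμ
  let K : Set (Fin r → ENNReal) := {c | ∃ i, c i = 0}
  have hK : IsCompact K := by
    have hc : IsClosed K := by
      have : K = ⋃ i, {c | c i = 0} := by ext c; simp [K]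
      rw [this]
      exact isClosed_iUnion_of_finite fun i => isClosed_eq (continuous_apply i) continuous_const
    exact hc.isCompact
  let D : Y × {ε : ℝ // 0 < ε} → Set (Fin r → ENNReal) := fun p =>
    {c | ∀ i, ∃ j, j ≠ i ∧ ENNReal.ofReal (F j p.1 - μ p.1) + c j ≤
        ENNReal.ofReal (F i p.1 - μ p.1) + c i + ENNReal.ofReal p.2.1}
  have hD : ∀ p, IsClosed (D p) := by
    intro p
    have : D p = ⋂ i, ⋃ j, {c | j ≠ i ∧ ENNReal.ofReal (F j p.1 - μ p.1) + c j ≤
        ENNReal.ofReal (F i p.1 - μ p.1) + c i + ENNReal.ofReal p.2.1} := by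
      ext c; simp [D]
    rw [this]
    refine isClosed_iInter fun i => isClosed_iUnion_of_finite fun j => ?_
    by_cases hij : j = i
    · simp [hij]
    · simp only [ne_eq, hij, not_false_eq_true, true_and]
      exact isClosed_le (by fun_prop) (by fun_prop)
  obtain ⟨c, ⟨i0, hi0⟩, hc⟩ := hK.inter_iInter_nonempty D hD (by
    classical
    intro u
    obtain ⟨δ, hδ, hδu⟩ := exists_pos_le (fun p : u => p.1.2.1) (fun p => p.1.2.2)
    obtain ⟨c, hc0, hc⟩ := approx F μ hμ hr hno (u.image Prod.fst) δ hδ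
    refine ⟨c, hc0, Set.mem_iInter₂.2 fun p hp i => ?_⟩
    obtain ⟨j, hj, hle⟩ := hc p.1 (Finset.mem_image_of_mem _ hp) i
    refine ⟨j, hj, hle.trans ?_⟩
    gcongr
    exact hδu ⟨p, hp⟩)
  have hc' : ∀ x i, ∃ j, j ≠ i ∧ ENNReal.ofReal (F j x - μ x) + c j ≤
      ENNReal.ofReal (F i x - μ x) + c i := by
    intro x i
    by_contra hcon
    push Not at hcon
    have : ∀ j : {j // j ≠ i}, ∃ ε : NNReal, 0 < ε ∧ ENNReal.ofReal (F i x - μ x) + c i + ε <
        ENNReal.ofReal (F j.1 x - μ x) + c j.1 := fun j =>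
      ENNReal.lt_iff_exists_add_pos_lt.1 (hcon j.1 j.2)
    choose e he1 he2 using this
    obtain ⟨δ, hδ, hδe⟩ := exists_pos_le (fun j => (e j : ℝ)) (fun j => he1 j)
    obtain ⟨j, hj, hle⟩ := Set.mem_iInter.1 hc (x, ⟨δ, hδ⟩) i
    refine absurd (he2 ⟨j, hj⟩) (not_lt.2 (hle.trans ?_))
    gcongr
    rw [ENNReal.ofReal_le_iff_le_toReal ENNReal.coe_ne_top]
    exact hδe ⟨j, hj⟩
  refine ⟨{i | c i ≠ ⊤}, ⟨i0, by simp [hi0]⟩, fun i => (c i).toReal, fun x => ?_⟩
  obtain ⟨i, hi⟩ := Finite.exists_min (fun i => ENNReal.ofReal (F i x - μ x) + c i)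
  obtain ⟨j, hj, hle⟩ := hc' x i
  have hfin : ENNReal.ofReal (F i x - μ x) + c i ≠ ⊤ := by
    refine ne_top_of_le_ne_top ?_ (hi i0)
    rw [hi0, add_zero]
    exact ENNReal.ofReal_ne_top
  have hci : c i ≠ ⊤ := fun h => hfin (by rw [h]; exact add_top _)
  have hcj : c j ≠ ⊤ := fun h => by
    rw [h, add_top] at hle
    exact hfin (top_le_iff.1 hle)
  have conv : ∀ k, c k ≠ ⊤ → ENNReal.ofReal (F k x - μ x) + c k =
      ENNReal.ofReal (F k x - μ x + (c k).toReal) := fun k hk => by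
    rw [ENNReal.ofReal_add (sub_nonneg.2 (hμ k x)) ENNReal.toReal_nonneg, ENNReal.ofReal_toReal hk]
  have le_of : ∀ k k', c k ≠ ⊤ → c k' ≠ ⊤ → ENNReal.ofReal (F k x - μ x) + c k ≤
      ENNReal.ofReal (F k' x - μ x) + c k' → F k x + (c k).toReal ≤ F k' x + (c k').toReal := by
    intro k k' hk hk' h
    rw [conv k hk, conv k' hk', ENNReal.ofReal_le_ofReal_iff
      (add_nonneg (sub_nonneg.2 (hμ k' x)) ENNReal.toReal_nonneg)] at h
    linarith
  exact ⟨i, hci, j, hcj, hj.symm, le_antisymm (le_of i j hci hcj (hi j)) (le_of j i hcj hci hle),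
    fun k hk => le_of i k hci hk (hi k)⟩

/-! ### Dimension of the fibres -/

theorem fibre_iff {Y : Type} {l : ℕ} (g : Fin l → Y → ℝ) (f : Y → ℝ) (m : Fin l → ℝ)
    (hm : ∀ j, IsLUB (Set.range fun x => f x - g j x) (m j)) (c : Fin l → ℝ) :
    Psi g c = (fun x => (f x : WithTop ℝ)) ↔
      (∀ j, m j ≤ c j ∨ IsEmpty Y) ∧ ∀ x, (∀ j, m j ≤ c j) ∧
        ∃ j, c j = m j ∧ f x - g j x = m j := by
  constructor
  · intro h
    have h' : ∀ x, (∀ j, f x ≤ g j x + c j) ∧ ∃ j, f x = g j x + c j := fun x =>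
      (Psi_eq_coe g c x _).1 (congrFun h x)
    have hle : ∀ j, m j ≤ c j := fun j => (hm j).2 (by
      rintro _ ⟨x, rfl⟩
      have := (h' x).1 j
      change f x - g j x ≤ c j
      linarith)
    refine ⟨fun j => Or.inl (hle j), fun x => ⟨hle, ?_⟩⟩
    obtain ⟨j, hj⟩ := (h' x).2
    have h1 : f x - g j x ≤ m j := (hm j).1 ⟨x, rfl⟩
    have h2 := hle j
    exact ⟨j, by linarith, by linarith⟩
  · rintro ⟨-, h⟩
    funext x
    obtain ⟨h1, j, hj, hj'⟩ := h x
    refine (Psi_eq_coe g c x _).2 ⟨fun k => ?_, j, by linarith⟩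
    have h2 : f x - g k x ≤ m k := (hm k).1 ⟨x, rfl⟩
    have h3 := h1 k
    linarith

theorem finrank_zero_on {l : ℕ} (T : Finset (Fin l)) (V : Submodule ℝ (Fin l → ℝ))
    (hV : ∀ v ∈ V, ∀ j ∈ T, v j = 0) : Module.finrank ℝ V ≤ l - T.card := by
  let π : (Fin l → ℝ) →ₗ[ℝ] (T → ℝ) := LinearMap.pi fun j => LinearMap.proj j.1
  have h1 : V ≤ LinearMap.ker π := by
    intro v hv
    rw [LinearMap.mem_ker]
    funext j
    exact hV v hv j.1 j.2
  have h2 : LinearMap.range π = ⊤ := by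
    rw [LinearMap.range_eq_top]
    intro u
    refine ⟨fun j => if h : j ∈ T then u ⟨j, h⟩ else 0, ?_⟩
    funext j
    simp [π]
  have h3 := LinearMap.finrank_range_add_finrank_ker π
  rw [h2, finrank_top, Module.finrank_fintype_fun_eq_card, Module.finrank_fintype_fun_eq_card,
    Fintype.card_coe, Fintype.card_fin] at h3
  have h4 := Submodule.finrank_mono h1
  omega

theorem polyDim_le {Y : Type} [Nonempty Y] {l : ℕ} (g : Fin l → Y → ℝ) (f : Y → ℝ)
    (m : Fin l → ℝ) (hm : ∀ j, IsLUB (Set.range fun x => f x - g j x) (m j)) (r : ℕ)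
    (hJ : ∀ J : Finset (Fin l), (∀ x, ∃ j ∈ J, f x - g j x = m j) → r ≤ J.card) :
    polyDim (Psi g ⁻¹' {fun x => (f x : WithTop ℝ)}) ≤ l - r := by
  classical
  refine csSup_le' ?_
  rintro n ⟨C, hC, hCne, hconv, rfl⟩
  let T : (Fin l → ℝ) → Finset (Fin l) := fun y => Finset.univ.filter fun j => y j = m j
  obtain ⟨y0, hy0, hmin⟩ : ∃ y0 ∈ C, ∀ y ∈ C, (T y0).card ≤ (T y).card := by
    have hne : ((fun y => (T y).card) '' C).Nonempty := hCne.image _
    obtain ⟨y0, hy0, h⟩ := Nat.sInf_mem hne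
    exact ⟨y0, hy0, fun y hy => by
      change (fun y => (T y).card) y0 ≤ _
      rw [h]
      exact Nat.sInf_le ⟨y, hy, rfl⟩⟩
  have x0 : Y := Classical.arbitrary Y
  have hle : ∀ y ∈ C, ∀ j, m j ≤ y j := fun y hy =>
    (((fibre_iff g f m hm y).1 (hC hy)).2 x0).1
  have hsub : ∀ y ∈ C, ∀ j ∈ T y0, y j = m j := by
    intro y hy
    have hz : (1 / 2 : ℝ) • y0 + (1 / 2 : ℝ) • y ∈ C :=
      hconv hy0 hy (by norm_num) (by norm_num) (by norm_num)
    have hzT : ∀ j ∈ T ((1 / 2 : ℝ) • y0 + (1 / 2 : ℝ) • y), y0 j = m j ∧ y j = m j := by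
      intro j hj
      have h1 := (Finset.mem_filter.1 hj).2
      simp only [Pi.add_apply, Pi.smul_apply, smul_eq_mul] at h1
      have h2 := hle y0 hy0 j
      have h3 := hle y hy j
      constructor <;> linarith
    have heq : T ((1 / 2 : ℝ) • y0 + (1 / 2 : ℝ) • y) = T y0 :=
      Finset.eq_of_subset_of_card_le
        (fun j hj => Finset.mem_filter.2 ⟨Finset.mem_univ j, (hzT j hj).1⟩) (hmin _ hz)
    intro j hj
    rw [← heq] at hj
    exact (hzT j hj).2
  have hr : r ≤ (T y0).card := by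
    refine hJ _ fun x => ?_
    obtain ⟨-, j, hj, hj'⟩ := ((fibre_iff g f m hm y0).1 (hC hy0)).2 x
    exact ⟨j, Finset.mem_filter.2 ⟨Finset.mem_univ j, hj⟩, hj'⟩
  refine (finrank_zero_on (T y0) (vectorSpan ℝ C) ?_).trans (by omega)
  intro v hv j hj
  have hspan : vectorSpan ℝ C ≤ LinearMap.ker (LinearMap.proj j : (Fin l → ℝ) →ₗ[ℝ] ℝ) := by
    rw [vectorSpan, Submodule.span_le]
    rintro _ ⟨a, ha, b, hb, rfl⟩
    change (a -ᵥ b) j = 0
    rw [vsub_eq_sub, Pi.sub_apply, hsub a ha j hj, hsub b hb j hj, sub_self]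
  exact hspan hv

theorem le_polyDim {Y : Type} [Nonempty Y] {l : ℕ} (g : Fin l → Y → ℝ) (f : Y → ℝ)
    (m : Fin l → ℝ) (hm : ∀ j, IsLUB (Set.range fun x => f x - g j x) (m j))
    (J : Finset (Fin l)) (hJ : ∀ x, ∃ j ∈ J, f x - g j x = m j) :
    l - J.card ≤ polyDim (Psi g ⁻¹' {fun x => (f x : WithTop ℝ)}) := by
  classical
  let C : Set (Fin l → ℝ) := {c | (∀ j, m j ≤ c j) ∧ ∀ j ∈ J, c j = m j}
  have hC : C ⊆ Psi g ⁻¹' {fun x => (f x : WithTop ℝ)} := by
    rintro c ⟨h1, h2⟩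
    refine (fibre_iff g f m hm c).2 ⟨fun j => Or.inl (h1 j), fun x => ⟨h1, ?_⟩⟩
    obtain ⟨j, hj, hj'⟩ := hJ x
    exact ⟨j, h2 j hj, hj'⟩
  have hmC : m ∈ C := ⟨fun j => le_rfl, fun j _ => rfl⟩
  have hconv : Convex ℝ C := by
    intro a ha b hb s t hs ht hst
    have ht' : t = 1 - s := by linarith
    subst ht'
    refine ⟨fun j => ?_, fun j hj => ?_⟩
    · simp only [Pi.add_apply, Pi.smul_apply, smul_eq_mul]
      nlinarith [ha.1 j, hb.1 j]
    · simp only [Pi.add_apply, Pi.smul_apply, smul_eq_mul]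
      rw [ha.2 j hj, hb.2 j hj]; ring
  have hbdd : BddAbove {n | ∃ C : Set (Fin l → ℝ), C ⊆ Psi g ⁻¹' {fun x => (f x : WithTop ℝ)} ∧
      C.Nonempty ∧ Convex ℝ C ∧ n = Module.finrank ℝ (vectorSpan ℝ C)} := by
    refine ⟨l, ?_⟩
    rintro n ⟨C, -, -, -, rfl⟩
    refine (Submodule.finrank_le _).trans ?_
    rw [Module.finrank_fintype_fun_eq_card, Fintype.card_fin]
  refine le_trans ?_ (le_csSup hbdd ⟨C, hC, ⟨m, hmC⟩, hconv, rfl⟩)
  have hli : LinearIndependent ℝ (fun j : {j // j ∉ J} => (Pi.single j.1 1 : Fin l → ℝ)) := by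
    have := (Pi.basisFun ℝ (Fin l)).linearIndependent
    have h2 := this.comp (fun j : {j // j ∉ J} => j.1) Subtype.val_injective
    convert h2 using 1
    funext j
    simp
  have hspan : Submodule.span ℝ (Set.range (fun j : {j // j ∉ J} =>
      (Pi.single j.1 1 : Fin l → ℝ))) ≤ vectorSpan ℝ C := by
    rw [Submodule.span_le]
    rintro _ ⟨j, rfl⟩
    have h1 : m + Pi.single j.1 1 ∈ C := by
      refine ⟨fun k => ?_, fun k hk => ?_⟩
      · by_cases hk : k = j.1
        · subst hk; simp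
        · simp [hk]
      · have : k ≠ j.1 := fun h => j.2 (h ▸ hk)
        simp [this]
    have h2 := vsub_mem_vectorSpan ℝ h1 hmC
    simpa using h2
  have h3 := Submodule.finrank_mono hspan
  rw [finrank_span_eq_card hli] at h3
  refine le_trans ?_ h3
  rw [Fintype.card_subtype_compl, Fintype.card_fin, Fintype.card_coe]

theorem exists_lub {Y : Type} [Nonempty Y] {l : ℕ} (g : Fin l → Y → ℝ) (f : Y → ℝ)
    (c : Fin l → ℝ) (h : Psi g c = fun x => (f x : WithTop ℝ)) :
    ∃ m : Fin l → ℝ, ∀ j, IsLUB (Set.range fun x => f x - g j x) (m j) := by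
  have : ∀ j, ∃ b, IsLUB (Set.range fun x => f x - g j x) b := fun j => by
    refine Real.exists_isLUB (Set.range_nonempty _) ⟨c j, ?_⟩
    rintro _ ⟨x, rfl⟩
    have := ((Psi_eq_coe g c x _).1 (congrFun h x)).1 j
    change f x - g j x ≤ c j
    linarith
  choose m hm using this
  exact ⟨m, hm⟩

/-! ### The two inequalities -/

theorem dim_le {Y : Type} [Nonempty Y] {l : ℕ} (g : Fin l → Y → ℝ) :
    dim g ≤ troprankT (semimod g) := by
  classical
  refine sSup_le ?_
  rintro _ ⟨F, -, ⟨c0, hc0⟩, rfl⟩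
  rcases Nat.eq_zero_or_pos (l - polyDim (Psi g ⁻¹' {F})) with h0 | hpos
  · rw [h0]; simp
  have hl : 0 < l := by omega
  obtain ⟨f, hf⟩ := exists_val g c0 ⟨0, hl⟩
  have hF : F = fun x => (f x : WithTop ℝ) := by rw [← hf]; exact hc0.symm
  subst hF
  obtain ⟨m, hm⟩ := exists_lub g f c0 hf
  have hfm : ∀ x j, f x ≤ g j x + m j := fun x j => by
    have : f x - g j x ≤ m j := (hm j).1 ⟨x, rfl⟩
    linarith
  -- a cover of minimal cardinality
  have hcov0 : ∃ J : Finset (Fin l), ∀ x, ∃ j ∈ J, f x - g j x = m j :=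
    ⟨Finset.univ, fun x => by
      obtain ⟨-, j, -, hj⟩ := ((fibre_iff g f m hm c0).1 hf).2 x
      exact ⟨j, Finset.mem_univ j, hj⟩⟩
  obtain ⟨J, hJ, hJmin⟩ : ∃ J : Finset (Fin l), (∀ x, ∃ j ∈ J, f x - g j x = m j) ∧
      ∀ J' : Finset (Fin l), (∀ x, ∃ j ∈ J', f x - g j x = m j) → J.card ≤ J'.card := by
    have hne : (Finset.card '' {J : Finset (Fin l) | ∀ x, ∃ j ∈ J, f x - g j x = m j}).Nonempty :=
      Set.Nonempty.image _ hcov0
    obtain ⟨J, hJ, h⟩ := Nat.sInf_mem hne
    exact ⟨J, hJ, fun J' hJ' => by rw [h]; exact Nat.sInf_le ⟨J', hJ', rfl⟩⟩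
  have hk : l - polyDim (Psi g ⁻¹' {fun x => (f x : WithTop ℝ)}) ≤ J.card := by
    have := le_polyDim g f m hm J hJ
    omega
  refine le_trans (Nat.cast_le.2 hk) ?_
  let e : Fin J.card ≃ J := J.equivFin.symm
  -- private points of the members of the cover
  have hpriv : ∀ i : Fin J.card, ∃ x, ∀ j ∈ J, j ≠ (e i).1 → f x - g j x ≠ m j := by
    intro i
    by_contra hcon
    push Not at hcon
    have := hJmin (J.erase (e i).1) fun x => by
      obtain ⟨j, hj, hne, hjx⟩ := hcon x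
      exact ⟨j, Finset.mem_erase.2 ⟨hne, hj⟩, hjx⟩
    rw [Finset.card_erase_of_mem (e i).2] at this
    have : 0 < J.card := Finset.card_pos.2 ⟨_, (e i).2⟩
    omega
  choose X hX using hpriv
  have hXi : ∀ i, f (X i) - g (e i).1 (X i) = m (e i).1 := by
    intro i
    obtain ⟨j, hj, hj'⟩ := hJ (X i)
    by_cases h : j = (e i).1
    · rw [← h]; exact hj'
    · exact absurd hj' (hX i j hj h)
  obtain ⟨δ, hδ, hgap⟩ := exists_pos_le
    (fun p : {p : Fin J.card × Fin J.card // p.1 ≠ p.2} =>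
      g (e p.1.2).1 (X p.1.1) + m (e p.1.2).1 - f (X p.1.1)) (fun p => by
        have h1 := hX p.1.1 (e p.1.2).1 (e p.1.2).2 (fun h => p.2 (e.injective (Subtype.ext h)).symm)
        have h2 := hfm (X p.1.1) (e p.1.2).1
        have h3 : f (X p.1.1) ≠ g (e p.1.2).1 (X p.1.1) + m (e p.1.2).1 := fun h => h1 (by linarith)
        have := lt_of_le_of_ne h2 h3
        linarith)
  let co : Fin J.card → Fin l → ℝ := fun i j => m j + if j = (e i).1 then 0 else δ
  choose G hG using fun i => exists_val g (co i) ⟨0, hl⟩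
  have hGi : ∀ i, G i (X i) = f (X i) := by
    intro i
    have h1 : Psi g (co i) (X i) = (f (X i) : WithTop ℝ) := by
      refine (Psi_eq_coe g _ _ _).2 ⟨fun j => ?_, (e i).1, ?_⟩
      · have h2 := hfm (X i) j
        simp only [co]
        split_ifs <;> linarith
      · simp only [co, if_true]
        have := hXi i
        linarith
    have h2 := congrFun (hG i) (X i)
    exact WithTop.coe_injective (h2.symm.trans h1)
  have hGij : ∀ i i', i ≠ i' → G i' (X i) = f (X i) + δ := by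
    intro i i' hne
    have h1 : Psi g (co i') (X i) = ((f (X i) + δ : ℝ) : WithTop ℝ) := by
      refine (Psi_eq_coe g _ _ _).2 ⟨fun j => ?_, (e i).1, ?_⟩
      · have h2 := hfm (X i) j
        simp only [co]
        split_ifs with h
        · have := hgap ⟨(i, i'), hne⟩
          subst h
          simp only at this
          linarith
        · linarith
      · have hne' : (e i).1 ≠ (e i').1 := fun h => hne (e.injective (Subtype.ext h))
        simp only [co, if_neg hne']
        have := hXi i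
        linarith
    have h2 := congrFun (hG i') (X i)
    exact WithTop.coe_injective (h2.symm.trans h1)
  refine le_sSup ⟨J.card, G, fun i => ?_, ?_, rfl⟩
  · rw [← hG i]
    exact ⟨_, rfl⟩
  · rintro ⟨I, hI, c, hc⟩
    obtain ⟨i, hiI, hi⟩ := Set.exists_min_image I c (Set.toFinite I) hI
    obtain ⟨i1, hi1, i2, hi2, hne, heq, hle⟩ := hc (X i)
    have h1 := hle i hiI
    have h2 : ∀ k ∈ I, k ≠ i → G i (X i) + c i < G k (X i) + c k := by
      intro k hk hki
      have h3 := hi k hk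
      rw [hGi, hGij i k (Ne.symm hki)]
      linarith
    by_cases h : i1 = i
    · have h3 := h2 i2 hi2 (fun h' => hne (h.trans h'.symm))
      linarith
    · have h3 := h2 i1 hi1 h
      linarith

theorem le_dim {Y : Type} [Nonempty Y] {l : ℕ} (g : Fin l → Y → ℝ) :
    troprankT (semimod g) ≤ dim g := by
  classical
  refine sSup_le ?_
  rintro _ ⟨r, F, hFM, hF, rfl⟩
  rcases Nat.eq_zero_or_pos r with rfl | hr
  · simp
  obtain ⟨a, ha⟩ := exists_private F hF
  choose X hX using ha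
  choose C hC using hFM
  have : Nonempty (Fin r) := ⟨⟨0, hr⟩⟩
  -- generic coefficients
  obtain ⟨δ, hδ, hgap⟩ := exists_pos_le
    (fun p : {p : Fin r × Fin r // p.2 ≠ p.1} =>
      (F p.1.2 (X p.1.1) + a p.1.2) - (F p.1.1 (X p.1.1) + a p.1.1)) (fun p => by
        have := hX p.1.1 p.1.2 p.2
        linarith)
  obtain ⟨t, ⟨ht0, ht1⟩, ht⟩ : ∃ t ∈ Set.Ioo (0 : ℝ) (δ / r), t ∉ Set.range
      (fun p : Fin r × Fin r × Fin l => (g p.2.2 (X p.1) - g p.2.2 (X p.2.1) -
        (F p.1 (X p.1) + a p.1) + (F p.2.1 (X p.2.1) + a p.2.1)) / ((p.1 : ℝ) - (p.2.1 : ℝ))) :=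
    (Set.Ioo_infinite (by positivity)).exists_notMem_finite (Set.finite_range _)
  have hrt : r * t < δ := by
    have : (0 : ℝ) < r := by exact_mod_cast hr
    calc r * t < r * (δ / r) := by gcongr
      _ = δ := by field_simp
  let b : Fin r → ℝ := fun i => a i + t * (i : ℝ)
  let v : Fin r → ℝ := fun i => F i (X i) + b i
  have hv : ∀ i i', i ≠ i' → ∀ j, v i - v i' ≠ g j (X i) - g j (X i') := by
    intro i i' hne j heq
    apply ht
    refine ⟨(i, i', j), ?_⟩
    have hd : ((i : ℕ) : ℝ) - ((i' : ℕ) : ℝ) ≠ 0 := by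
      rw [sub_ne_zero]
      exact fun h => hne (Fin.ext (by exact_mod_cast h))
    simp only [v, b] at heq
    rw [div_eq_iff hd]
    linarith
  have hb : ∀ i j, v i ≤ F j (X i) + b j := by
    intro i j
    by_cases hij : j = i
    · rw [hij]
    · have h1 := hgap ⟨(i, j), hij⟩
      simp only at h1
      have h2 : ((i : ℕ) : ℝ) ≤ r := by exact_mod_cast i.2.le
      have h3 : (0 : ℝ) ≤ ((j : ℕ) : ℝ) := Nat.cast_nonneg _
      simp only [v, b]
      nlinarith
  -- real coefficients with the prescribed values at the points `X i`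
  obtain ⟨N, hN⟩ := exists_ge (fun p : Fin r × Fin l => v p.1 - g p.2 (X p.1))
  have hco : ∀ j : Fin l, ∃ q : ℝ, (∀ i (u : ℝ), C i j = (u : WithTop ℝ) → q ≤ u + b i) ∧
      (q = N ∨ ∃ i, ∃ u : ℝ, C i j = (u : WithTop ℝ) ∧ q = u + b i) := by
    intro j
    let h : Option {i : Fin r // C i j ≠ ⊤} → ℝ := fun o => match o with
      | none => N
      | some i => (C i.1 j).untop i.2 + b i.1
    obtain ⟨o, ho⟩ := Finite.exists_min h
    refine ⟨h o, fun i u hu => ?_, ?_⟩
    · have h1 : C i j ≠ ⊤ := by rw [hu]; exact WithTop.coe_ne_top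
      have h2 := ho (some ⟨i, h1⟩)
      have h3 : (C i j).untop h1 = u := by
        apply WithTop.coe_injective
        rw [WithTop.coe_untop, hu]
      simp only [h] at h2 ⊢
      rwa [h3] at h2
    · rcases o with _ | ⟨i, hi⟩
      · exact Or.inl rfl
      · exact Or.inr ⟨i, (C i j).untop hi, (WithTop.coe_untop _ _).symm, rfl⟩
  choose q hq1 hq2 using hco
  have hval : ∀ i, (∀ j, v i ≤ g j (X i) + q j) ∧ ∃ j, v i = g j (X i) + q j := by
    intro i
    have hlow : ∀ j, v i ≤ g j (X i) + q j := by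
      intro j
      rcases hq2 j with h | ⟨i', u, hu, h⟩
      · have := hN (i, j)
        simp only at this
        linarith
      · have h1 := ((comb_eq_coe g (C i') (X i) _).1 (congrFun (hC i') (X i))).1 j
        rw [hu] at h1
        have h2 : F i' (X i) ≤ g j (X i) + u := by exact_mod_cast h1
        have h3 := hb i i'
        linarith
    obtain ⟨j, hj⟩ := ((comb_eq_coe g (C i) (X i) _).1 (congrFun (hC i) (X i))).2
    obtain ⟨u, hu⟩ : ∃ u : ℝ, C i j = (u : WithTop ℝ) := by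
      rcases h : C i j with _ | u
      · rw [h] at hj
        exact absurd hj WithTop.coe_ne_top
      · exact ⟨u, rfl⟩
    rw [hu] at hj
    have hj' : F i (X i) = g j (X i) + u := by exact_mod_cast hj
    refine ⟨hlow, j, le_antisymm (hlow j) ?_⟩
    have := hq1 j i u hu
    simp only [v]
    linarith
  obtain ⟨j0, -⟩ := (hval ⟨0, hr⟩).2
  obtain ⟨f, hf⟩ := exists_val g q j0
  obtain ⟨m, hm⟩ := exists_lub g f q hf
  have hfv : ∀ i, f (X i) = v i := by
    intro i
    have h1 := (Psi_eq_coe g q (X i) (v i)).2 (hval i)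
    have h2 := congrFun hf (X i)
    exact WithTop.coe_injective (h2.symm.trans h1)
  have hcard : ∀ J : Finset (Fin l), (∀ x, ∃ j ∈ J, f x - g j x = m j) → r ≤ J.card := by
    intro J hJ
    choose σ hσ1 hσ2 using fun i => hJ (X i)
    have hinj : Function.Injective σ := by
      intro i i' h
      by_contra hne
      have h1 := hσ2 i
      have h2 := hσ2 i'
      rw [← h] at h2
      rw [hfv] at h1 h2
      exact hv i i' hne (σ i) (by linarith)
    calc r = (Finset.univ : Finset (Fin r)).card := by simp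
      _ = (Finset.univ.image σ).card := (Finset.card_image_of_injective _ hinj).symm
      _ ≤ J.card := Finset.card_le_card fun j hj => by
          obtain ⟨i, -, rfl⟩ := Finset.mem_image.1 hj
          exact hσ1 i
  have h1 := polyDim_le g f m hm r hcard
  have h2 : r ≤ l := by
    have := hcard Finset.univ fun x => by
      obtain ⟨-, j, -, hj⟩ := ((fibre_iff g f m hm q).1 hf).2 x
      exact ⟨j, Finset.mem_univ j, hj⟩
    simpa using this
  refine le_trans (Nat.cast_le.2 (?_ : r ≤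
    l - polyDim (Psi g ⁻¹' {fun x => (f x : WithTop ℝ)}))) (le_sSup ⟨fun x => (f x : WithTop ℝ),
      ⟨_, hf⟩, ⟨q, hf⟩, rfl⟩)
  omega

/-! ### Real coefficients -/

theorem dependentT_of_dependent {Y : Type} {r : ℕ} (F : Fin r → Y → ℝ) (hr : 0 < r)
    (h : TropDependent F) : TropDependentT F := by
  obtain ⟨c, hc⟩ := h
  refine ⟨Set.univ, ⟨⟨0, hr⟩, trivial⟩, c, fun x => ?_⟩
  obtain ⟨i, j, hij, heq, hle⟩ := hc x
  exact ⟨i, trivial, j, trivial, hij, heq, fun k _ => hle k⟩

theorem troprankT_le {Y : Type} [Nonempty Y] (M : Set (Y → WithTop ℝ)) :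
    troprankT M ≤ troprank M := by
  refine sSup_le ?_
  rintro _ ⟨r, F, hFM, hF, rfl⟩
  rcases Nat.eq_zero_or_pos r with rfl | hr
  · simp
  · exact le_sSup ⟨r, F, hFM, fun h => hF (dependentT_of_dependent F hr h), rfl⟩

theorem bounded_of_mem {Y : Type} {l : ℕ} (g : Fin l → Y → ℝ)
    (hB : ∀ i j, ∃ B : ℝ, ∀ x, |g i x - g j x| ≤ B) (F : Y → ℝ)
    (hF : (fun x => (F x : WithTop ℝ)) ∈ semimod g) (j0 : Fin l) :
    ∃ B : ℝ, ∀ x, |F x - g j0 x| ≤ B := by
  obtain ⟨C, hC⟩ := hF
  choose B hB using hB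
  obtain ⟨N, hN⟩ := exists_ge (fun j => B j j0 + |(C j).untopD 0|)
  refine ⟨N, fun x => ?_⟩
  obtain ⟨j, hj⟩ := ((comb_eq_coe g C x _).1 (congrFun hC x)).2
  obtain ⟨u, hu⟩ : ∃ u : ℝ, C j = (u : WithTop ℝ) := by
    rcases h : C j with _ | u
    · rw [h] at hj
      exact absurd hj WithTop.coe_ne_top
    · exact ⟨u, rfl⟩
  rw [hu] at hj
  have hj' : F x = g j x + u := by exact_mod_cast hj
  have h1 := hN j
  simp only [hu, WithTop.untopD_coe] at h1
  have h2 := hB j j0 x
  calc |F x - g j0 x| = |(g j x - g j0 x) + u| := by rw [hj']; ring_nf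
    _ ≤ |g j x - g j0 x| + |u| := abs_add_le _ _
    _ ≤ N := by linarith

theorem dependent_of_dependentT {Y : Type} {r : ℕ} (F : Fin r → Y → ℝ)
    (hB : ∀ i j, ∃ B : ℝ, ∀ x, |F i x - F j x| ≤ B) (h : TropDependentT F) :
    TropDependent F := by
  classical
  obtain ⟨I, ⟨i0, hi0⟩, c, hc⟩ := h
  choose B hB using hB
  obtain ⟨N, hN⟩ := exists_ge (fun p : Fin r × Fin r => B p.1 p.2 + c p.1)
  refine ⟨fun i => if i ∈ I then c i else N, fun x => ?_⟩
  obtain ⟨i, hi, j, hj, hij, heq, hle⟩ := hc x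
  refine ⟨i, j, hij, by simpa only [if_pos hi, if_pos hj] using heq, fun k => ?_⟩
  by_cases hk : k ∈ I
  · simpa only [if_pos hi, if_pos hk] using hle k hk
  · simp only [if_pos hi, if_neg hk]
    have h1 := hN (i, k)
    simp only at h1
    have h2 := (abs_le.1 (hB i k x)).2
    linarith

theorem troprank_le {Y : Type} [Nonempty Y] {l : ℕ} (g : Fin l → Y → ℝ)
    (hB : ∀ i j, ∃ B : ℝ, ∀ x, |g i x - g j x| ≤ B) :
    troprank (semimod g) ≤ troprankT (semimod g) := by
  refine sSup_le ?_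
  rintro _ ⟨r, F, hFM, hF, rfl⟩
  refine le_sSup ⟨r, F, hFM, fun h => hF (dependent_of_dependentT F (fun i j => ?_) h), rfl⟩
  obtain ⟨C, hC⟩ := hFM i
  obtain ⟨j0, -⟩ := ((comb_eq_coe g C (Classical.arbitrary Y) _).1 (congrFun hC _)).2
  obtain ⟨B1, h1⟩ := bounded_of_mem g hB (F i) (hFM i) j0
  obtain ⟨B2, h2⟩ := bounded_of_mem g hB (F j) (hFM j) j0
  refine ⟨B1 + B2, fun x => ?_⟩
  have e1 := abs_le.1 (h1 x)
  have e2 := abs_le.1 (h2 x)
  exact abs_le.2 ⟨by linarith [e1.1, e2.2], by linarith [e1.2, e2.1]⟩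

/-! ### The unbounded example -/

/-- the functions `0` and `x` on the real line -/
def gLine : Fin 2 → ↥(Set.univ : Set (Fin 1 → ℝ)) → ℝ := ![fun _ => 0, fun x => x.1 0]

/-- the point `t` of the line -/
def pt (t : ℝ) : ↥(Set.univ : Set (Fin 1 → ℝ)) := ⟨fun _ => t, trivial⟩

theorem gLine_pl (j : Fin 2) : IsPL (gLine j) := by
  have huniv : IsPolyhedron (Set.univ : Set (Fin 1 → ℝ)) :=
    ⟨0, fun i => i.elim0, fun i => i.elim0, by ext x; simp⟩
  have hU : (Set.univ : Set (Fin 1 → ℝ)) = ⋃ _ : Fin 1, Set.univ := by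
    ext x; simp
  fin_cases j
  · refine ⟨continuous_const, 1, fun _ => Set.univ, fun _ => huniv, hU, fun _ =>
      ⟨0, 0, fun x _ => by simp [gLine]⟩⟩
  · refine ⟨(continuous_apply 0).comp continuous_subtype_val, 1, fun _ => Set.univ,
      fun _ => huniv, hU, fun _ => ⟨fun _ => 1, 0, fun x _ => by simp [gLine]⟩⟩

theorem dim_gLine : dim gLine = 2 := by
  have : Nonempty ↥(Set.univ : Set (Fin 1 → ℝ)) := ⟨pt 0⟩
  apply le_antisymm
  · refine sSup_le ?_
    rintro _ ⟨F, -, -, rfl⟩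
    have : 2 - polyDim (Psi gLine ⁻¹' {F}) ≤ 2 := Nat.sub_le _ _
    exact_mod_cast this
  · have hsub : (Psi gLine ⁻¹' {Psi gLine 0}) ⊆ {0} := by
      intro c hc
      have hc' : Psi gLine c = Psi gLine 0 := hc
      have h1 : Psi gLine 0 (pt (|c 0| + |c 1| + 1)) = ((0 : ℝ) : WithTop ℝ) := by
        refine (Psi_eq_coe gLine _ _ _).2 ⟨fun j => ?_, 0, by simp [gLine]⟩
        fin_cases j
        · simp [gLine]
        · simp only [gLine, pt]
          simp
          positivity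
      have h2 : Psi gLine 0 (pt (-(|c 0| + |c 1| + 1))) =
          ((-(|c 0| + |c 1| + 1) : ℝ) : WithTop ℝ) := by
        refine (Psi_eq_coe gLine _ _ _).2 ⟨fun j => ?_, 1, by simp [gLine, pt]⟩
        fin_cases j
        · have := abs_nonneg (c 0)
          have := abs_nonneg (c 1)
          simp [gLine]
          linarith
        · simp [gLine, pt]
      rw [← hc'] at h1 h2
      obtain ⟨h1a, j1, h1b⟩ := (Psi_eq_coe gLine _ _ _).1 h1
      obtain ⟨h2a, j2, h2b⟩ := (Psi_eq_coe gLine _ _ _).1 h2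
      have k0 := neg_abs_le (c 0)
      have k1 := neg_abs_le (c 1)
      have k2 := le_abs_self (c 0)
      have k3 := le_abs_self (c 1)
      have k4 := abs_nonneg (c 0)
      have k5 := abs_nonneg (c 1)
      have e0 : c 0 = 0 := by
        fin_cases j1
        · simp [gLine] at h1b
          exact h1b.symm
        · simp [gLine, pt] at h1b
          exfalso
          have := h1a 0
          simp [gLine] at this
          linarith
      have e1 : c 1 = 0 := by
        fin_cases j2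
        · simp [gLine] at h2b
          exfalso
          linarith
        · simp [gLine, pt] at h2b
          exact h2b
      have : c = 0 := by
        funext j
        fin_cases j
        · exact e0
        · exact e1
      exact this
    have hdim : polyDim (Psi gLine ⁻¹' {Psi gLine 0}) = 0 := by
      refine Nat.eq_zero_of_le_zero (csSup_le' ?_)
      rintro n ⟨C, hC, -, -, rfl⟩
      have : vectorSpan ℝ C = ⊥ := by
        rw [vectorSpan_eq_bot_iff_subsingleton]
        exact Set.Subsingleton.anti Set.subsingleton_singleton (hC.trans hsub)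
      rw [this]
      simp
    refine le_trans ?_ (le_sSup ⟨Psi gLine 0, ⟨_, rfl⟩, ⟨0, rfl⟩, rfl⟩)
    rw [hdim]
    simp

theorem troprank_gLine : troprank (semimod gLine) = ⊤ := by
  rw [troprank, sSup_eq_top]
  intro b hb
  obtain ⟨n, rfl⟩ := ENat.ne_top_iff_exists.1 hb.ne
  refine ⟨((n + 1 : ℕ) : ℕ∞), ⟨n + 1, fun i x => if i = 0 then x.1 0 else (i : ℝ), fun i => ?_, ?_,
    rfl⟩, by exact_mod_cast Nat.lt_succ_self n⟩
  · by_cases hi : i = 0
    · refine ⟨![⊤, 0], ?_⟩
      funext x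
      simp only [hi, if_true]
      refine (comb_eq_coe gLine _ _ _).2 ⟨fun j => ?_, 1, by simp [gLine]⟩
      fin_cases j <;> simp [gLine]
    · refine ⟨![((i : ℝ) : WithTop ℝ), ⊤], ?_⟩
      funext x
      simp only [hi, if_false]
      refine (comb_eq_coe gLine _ _ _).2 ⟨fun j => ?_, 0, by simp [gLine]⟩
      fin_cases j <;> simp [gLine]
  · rintro ⟨c, hc⟩
    obtain ⟨N, hN⟩ := exists_ge (fun i : Fin (n + 1) => c 0 - c i)
    obtain ⟨i, j, hij, heq, hle⟩ := hc (pt (-N - 1))
    have key : ∀ k : Fin (n + 1), k ≠ 0 → (-N - 1) + c 0 < (k : ℝ) + c k := by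
      intro k _
      have h1 := hN k
      have h2 : (0 : ℝ) ≤ ((k : ℕ) : ℝ) := Nat.cast_nonneg _
      linarith
    have h0 := hle 0
    by_cases hi : i = 0
    · have hj : j ≠ 0 := fun h => hij (hi.trans h.symm)
      have := key j hj
      beta_reduce at heq
      rw [if_pos hi, if_neg hj, hi] at heq
      change (-N - 1) + c 0 = ((j : ℕ) : ℝ) + c j at heq
      linarith
    · have := key i hi
      beta_reduce at h0
      rw [if_neg hi, if_pos rfl] at h0
      change ((i : ℕ) : ℝ) + c i ≤ (-N - 1) + c 0 at h0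
      linarith

/-- **Main theorem.**
1. With coefficients in `T = ℝ ∪ {∞}`: for every nonempty set `Y` and all real functions
   `g_1, ..., g_l` on `Y`, the tropical rank of the generated semimodule equals its dimension.
2. With real coefficients the equality holds if the differences `g_i - g_j` are bounded.
3. With real coefficients the equality holds for continuous functions on a compact set, hence for
   piecewise linear functions on compact polyhedral spaces.
4. With real coefficients the equality fails for the semimodule generated by `0` and `x` on the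
   polyhedral space `ℝ`: its dimension is `2` and its tropical rank is infinite. -/
theorem result :
    (∀ (Y : Type) [Nonempty Y] (l : ℕ) (g : Fin l → Y → ℝ),
      troprankT (semimod g) = dim g) ∧
    (∀ (Y : Type) [Nonempty Y] (l : ℕ) (g : Fin l → Y → ℝ),
      (∀ i j, ∃ B : ℝ, ∀ x, |g i x - g j x| ≤ B) → troprank (semimod g) = dim g) ∧
    (∀ (d : ℕ) (Y : Set (Fin d → ℝ)), IsCompact Y → Y.Nonempty → ∀ (l : ℕ) (g : Fin l → Y → ℝ),
      (∀ j, Continuous (g j)) → troprank (semimod g) = dim g) ∧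
    (∃ g : Fin 2 → ↥(Set.univ : Set (Fin 1 → ℝ)) → ℝ,
      (∀ j, IsPL (g j)) ∧ dim g = 2 ∧ troprank (semimod g) = ⊤) := by
  have h2 : ∀ (Y : Type) [Nonempty Y] (l : ℕ) (g : Fin l → Y → ℝ),
      (∀ i j, ∃ B : ℝ, ∀ x, |g i x - g j x| ≤ B) → troprank (semimod g) = dim g :=
    fun Y _ l g hB => le_antisymm ((troprank_le g hB).trans (le_dim g))
      ((dim_le g).trans (troprankT_le _))
  refine ⟨fun Y _ l g => le_antisymm (le_dim g) (dim_le g), h2, fun d Y hY hne l g hg => ?_,
    gLine, gLine_pl, dim_gLine, troprank_gLine⟩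
  have : Nonempty Y := hne.to_subtype
  have : CompactSpace Y := isCompact_iff_compactSpace.1 hY
  refine h2 Y l g fun i j => ?_
  obtain ⟨B, hB⟩ := (isCompact_univ.image (f := fun x => |g i x - g j x|)
    ((hg i).sub (hg j)).abs).bddAbove
  exact ⟨B, fun x => hB ⟨x, trivial, rfl⟩⟩

end Pool.Agent.Results.MP_8916ec_co.TropRankDim
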